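import Pool.Agent.Helper64.DG.Defs
import Pool.Agent.Helper60.HG.GEO

/-! Helly circle graphs are diamond-free. -/

set_option autoImplicit false

namespace Pool.Agent.Helper90.DG

open Pool.Agent.Helper64.DG Pool.Agent.Helper64.HG
open Pool.Agent.Helper64.DT (DF)

theorem nrm_sq {z : ℂ} (h : ‖z‖ = 1) : z.re ^ 2 + z.im ^ 2 = 1 := by
  have h1 := Complex.sq_norm z
  rw [h, Complex.normSq_apply] at h1
  linarith

/-- a line meets the circle in two points only -/
theorem line_circle {p q : ℂ} (hp : ‖p‖ = 1) (hq : ‖q‖ = 1) (hne : p ≠ q) {m : ℝ}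
    (h : ‖p + m • (q - p)‖ = 1) : m = 0 ∨ m = 1 := by
  have h1 := nrm_sq hp
  have h2 := nrm_sq hq
  have h3 := nrm_sq h
  simp only [Complex.add_re, Complex.smul_re, Complex.sub_re, smul_eq_mul, Complex.add_im, Complex.smul_im,
    Complex.sub_im] at h3
  have h4 : m * (m - 1) * ((q.re - p.re) ^ 2 + (q.im - p.im) ^ 2) = 0 := by
    linear_combination h3 - (1 - m) * h1 - m * h2
  rcases mul_eq_zero.mp h4 with h5 | h5
  · rcases mul_eq_zero.mp h5 with h6 | h6
    · exact Or.inl h6
    · exact Or.inr (by linarith)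
  · exfalso
    apply hne
    have e1 : q.re - p.re = 0 := by nlinarith [sq_nonneg (q.re - p.re), sq_nonneg (q.im - p.im)]
    have e2 : q.im - p.im = 0 := by nlinarith [sq_nonneg (q.re - p.re), sq_nonneg (q.im - p.im)]
    exact Complex.ext (by linarith) (by linarith)

theorem geo_D_seg {p q z : ℂ} (h : z ∈ segment ℝ p q) : geo_D p q z = 0 := by
  rw [segment_eq_image'] at h
  obtain ⟨m, -, rfl⟩ := h
  have h1 : geo_D p q (p + m • (q - p)) = 0 := by
    rw [geo_D_lin, geo_D_left, geo_D_right]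
    ring
  exact h1

/-- two chords with four different ends meet in one point -/
theorem meet_unique {p q x y : ℂ} (hp : ‖p‖ = 1) (hq : ‖q‖ = 1) (hx : ‖x‖ = 1) (hpq : p ≠ q)
    (hxp : x ≠ p) (hxq : x ≠ q) {z z' : ℂ} (h1 : z ∈ segment ℝ p q) (h2 : z ∈ segment ℝ x y)
    (h3 : z' ∈ segment ℝ p q) (h4 : z' ∈ segment ℝ x y) : z = z' := by
  have d1 := geo_D_seg h1
  have d3 := geo_D_seg h3
  rw [segment_eq_image'] at h2 h4
  obtain ⟨a, -, ha⟩ := h2
  obtain ⟨b, -, hb⟩ := h4
  have ha' : x + a • (y - x) = z := ha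
  have hb' : x + b • (y - x) = z' := hb
  rw [← ha', geo_D_lin] at d1
  rw [← hb', geo_D_lin] at d3
  by_cases hab : a = b
  · rw [← ha', ← hb', hab]
  exfalso
  have hx0 : geo_D p q x = 0 := by
    have e : (a - b) * geo_D p q x = 0 := by linear_combination a * d3 - b * d1
    rcases mul_eq_zero.mp e with h | h
    · exact absurd (by linarith) hab
    · exact h
  obtain ⟨m, hm⟩ := geo_line p q x hpq hx0
  rw [hm] at hx
  rcases line_circle hp hq hpq hx with h | h
  · apply hxp
    rw [hm, h, zero_smul, add_zero]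
  · apply hxq
    rw [hm, h, one_smul, add_sub_cancel]

theorem st_HDF : ST_HDF := by
  intro V G hG a b c d hab hac hbc had hbd hcd
  obtain ⟨M, hH⟩ := hG
  have self : ∀ u : V, (segment ℝ (M.a u) (M.b u) ∩ segment ℝ (M.a u) (M.b u)).Nonempty := fun u =>
    ⟨M.a u, left_mem_segment ℝ _ _, left_mem_segment ℝ _ _⟩
  have key : ∀ e : V, G.Adj a e → G.Adj b e → ∃ z, z ∈ segment ℝ (M.a a) (M.b a) ∧ z ∈ segment ℝ (M.a b) (M.b b) ∧
      z ∈ segment ℝ (M.a e) (M.b e) := by
    intro e hae hbe
    have m1 := (M.adj a b hab.ne).mp hab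
    have m2 := (M.adj a e hae.ne).mp hae
    have m3 := (M.adj b e hbe.ne).mp hbe
    obtain ⟨z, hz⟩ := hH {a, b, e} (by
      intro u hu v hv
      simp only [Set.mem_insert_iff, Set.mem_singleton_iff] at hu hv
      rcases hu with rfl | rfl | rfl <;> rcases hv with rfl | rfl | rfl
      · exact self _
      · exact m1
      · exact m2
      · rw [Set.inter_comm]; exact m1
      · exact self _
      · exact m3
      · rw [Set.inter_comm]; exact m2
      · rw [Set.inter_comm]; exact m3
      · exact self _)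
    simp only [Set.mem_iInter] at hz
    exact ⟨z, hz a (by simp), hz b (by simp), hz e (by simp)⟩
  obtain ⟨z, z1, z2, z3⟩ := key c hac hbc
  obtain ⟨z', z1', z2', z3'⟩ := key d had hbd
  have hne : M.a a ≠ M.b a := fun h => by
    have := M.distinct (a₁ := Sum.inl a) (a₂ := Sum.inr a) (by simpa using h)
    exact absurd this (by simp)
  have hba : M.a b ≠ M.a a := fun h => by
    have := M.distinct (a₁ := Sum.inl b) (a₂ := Sum.inl a) (by simpa using h)
    exact hab.ne (Sum.inl_injective this).symm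
  have hbb : M.a b ≠ M.b a := fun h => by
    have := M.distinct (a₁ := Sum.inl b) (a₂ := Sum.inr a) (by simpa using h)
    exact absurd this (by simp)
  have hzz : z = z' := meet_unique (M.norm_a a) (M.norm_b a) (M.norm_a b) hne hba hbb z1 z2 z1' z2'
  rw [M.adj c d hcd]
  exact ⟨z, z3, by rw [hzz]; exact z3'⟩

end Pool.Agent.Helper90.DG
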