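import Pool.Agent.Helper64.DG.Defs
import Pool.Agent.Helper60.HG.GEO

/-! Real models with concurrent triangles give Helly chord models. -/

set_option autoImplicit false

namespace Pool.Agent.Helper90.DG

open Pool.Agent.Helper64.DG Pool.Agent.Helper64.HG

/-- the point of the circle of the real number `x` -/
noncomputable def pt (x : ℝ) : ℂ := geo_e (2 * Real.arctan x)

theorem pt_re (x : ℝ) : (pt x).re = (1 - x ^ 2) / (1 + x ^ 2) := by
  unfold pt
  rw [geo_e_re, Real.cos_two_mul, Real.cos_sq_arctan]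
  have : 0 < 1 + x ^ 2 := by positivity
  field_simp
  ring

theorem pt_im (x : ℝ) : (pt x).im = 2 * x / (1 + x ^ 2) := by
  unfold pt
  rw [geo_e_im, Real.sin_two_mul]
  have h1 : Real.sin (Real.arctan x) = x * Real.cos (Real.arctan x) := by
    have h2 := Real.tan_arctan x
    rw [Real.tan_eq_sin_div_cos, div_eq_iff (Real.cos_arctan_pos x).ne'] at h2
    exact h2
  rw [h1]
  have h3 := Real.cos_sq_arctan x
  have h4 : 2 * (x * Real.cos (Real.arctan x)) * Real.cos (Real.arctan x) = 2 * x * Real.cos (Real.arctan x) ^ 2 := by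
    ring
  rw [h4, h3]
  ring

/-- the common point -/
noncomputable def zz (m k : ℝ) : ℂ := ⟨(1 - m ^ 2 - k) / (1 + m ^ 2 + k), 2 * m / (1 + m ^ 2 + k)⟩

theorem zz_mem {m k s t : ℝ} (hk : 0 < k) (hst : s < t) (h : Thr m k s t) :
    zz m k ∈ segment ℝ (pt s) (pt t) := by
  unfold Thr at h
  have hk' : k = (m - s) * (t - m) := by linarith
  have hm : s < m ∧ m < t := by
    constructor
    · by_contra hc
      push Not at hc
      nlinarith
    · by_contra hc
      push Not at hc
      nlinarith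
  have hts : 0 < t - s := by linarith
  have hD : 0 < 1 + m ^ 2 + k := by positivity
  have hs2 : 0 < 1 + s ^ 2 := by positivity
  have ht2 : 0 < 1 + t ^ 2 := by positivity
  refine ⟨(t - m) * (1 + s ^ 2) / ((t - s) * (1 + m ^ 2 + k)), (m - s) * (1 + t ^ 2) / ((t - s) * (1 + m ^ 2 + k)),
    ?_, ?_, ?_, ?_⟩
  · have : 0 < t - m := by linarith [hm.2]
    positivity
  · have : 0 < m - s := by linarith [hm.1]
    positivity
  · rw [← add_div, div_eq_one_iff_eq (by positivity), hk']
    ring
  · apply Complex.ext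
    · rw [Complex.add_re, Complex.real_smul, Complex.real_smul, Complex.re_ofReal_mul, Complex.re_ofReal_mul,
        pt_re, pt_re]
      show _ = (1 - m ^ 2 - k) / (1 + m ^ 2 + k)
      have hD' : 0 < 1 + m ^ 2 + (m - s) * (t - m) := by rw [← hk']; exact hD
      rw [hk']
      field_simp
      ring
    · rw [Complex.add_im, Complex.real_smul, Complex.real_smul, Complex.im_ofReal_mul, Complex.im_ofReal_mul,
        pt_im, pt_im]
      show _ = 2 * m / (1 + m ^ 2 + k)
      have hD' : 0 < 1 + m ^ 2 + (m - s) * (t - m) := by rw [← hk']; exact hD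
      rw [hk']
      field_simp
      ring

/-- the common point of two overlapping chords -/
theorem ovl_pt {s1 s2 t1 t2 : ℝ} (h1 : s1 < s2) (h2 : s2 < t1) (h3 : t1 < t2) :
    ∃ m k : ℝ, 0 < k ∧ Thr m k s1 t1 ∧ Thr m k s2 t2 := by
  have hd : 0 < (s2 + t2) - (s1 + t1) := by linarith
  set m := (s2 * t2 - s1 * t1) / ((s2 + t2) - (s1 + t1)) with hm
  have hm' : m * ((s2 + t2) - (s1 + t1)) = s2 * t2 - s1 * t1 := by
    rw [hm]
    field_simp
  have a1 : 0 < m - s1 := by
    have e : (m - s1) * ((s2 + t2) - (s1 + t1)) = (s2 - s1) * (t2 - s1) := by linear_combination hm'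
    have : 0 < (s2 - s1) * (t2 - s1) := mul_pos (by linarith) (by linarith)
    rw [← e] at this
    exact (pos_iff_pos_of_mul_pos this).mpr hd
  have a2 : 0 < t1 - m := by
    have e : (t1 - m) * ((s2 + t2) - (s1 + t1)) = (t2 - t1) * (t1 - s2) := by linear_combination -hm'
    have : 0 < (t2 - t1) * (t1 - s2) := mul_pos (by linarith) (by linarith)
    rw [← e] at this
    exact (pos_iff_pos_of_mul_pos this).mpr hd
  refine ⟨m, (m - s1) * (t1 - m), mul_pos a1 a2, ?_, ?_⟩
  · unfold Thr
    ring
  · unfold Thr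
    linear_combination -hm'

/-- uniqueness -/
theorem thr_unique {m k m' k' s1 s2 t1 t2 : ℝ} (hne : s1 + t1 ≠ s2 + t2) (a1 : Thr m k s1 t1) (a2 : Thr m k s2 t2)
    (b1 : Thr m' k' s1 t1) (b2 : Thr m' k' s2 t2) : m = m' ∧ k = k' := by
  unfold Thr at a1 a2 b1 b2
  have h1 : (m - m') * ((s1 + t1) - (s2 + t2)) = 0 := by linear_combination b1 - b2 - a1 + a2
  have h2 : m = m' := by
    rcases mul_eq_zero.mp h1 with h | h
    · linarith
    · exact absurd (by linarith) hne
  refine ⟨h2, ?_⟩
  rw [h2] at a1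
  linarith

theorem st_HGE : ST_HGE := by
  intro V G l r hH
  obtain ⟨hM, hT⟩ := hH
  have hA : ∀ x : ℝ, -Real.pi < 2 * Real.arctan x ∧ 2 * Real.arctan x ≤ Real.pi := by
    intro x
    have h1 := Real.neg_pi_div_two_lt_arctan x
    have h2 := Real.arctan_lt_pi_div_two x
    constructor <;> linarith
  have hm : StrictMono fun x : ℝ => 2 * Real.arctan x := fun x y h => by
    have := Real.arctan_strictMono h
    show 2 * Real.arctan x < 2 * Real.arctan y
    linarith
  have hinj : ∀ x y : ℝ, pt x = pt y → x = y := fun x y hxy =>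
    hm.injective (geo_e_inj (hA x).1 (hA x).2 (hA y).1 (hA y).2 hxy)
  have hadj : ∀ u v, u ≠ v → (G.Adj u v ↔
      (segment ℝ (pt (l u)) (pt (r u)) ∩ segment ℝ (pt (l v)) (pt (r v))).Nonempty) := by
    intro u v huv
    rw [hM.adj u v]
    unfold pt
    rw [geo_key (hA _).1 (hA _).2 (hm (hM.lt u)) (hA _).1 (hA _).2 (hm (hM.lt v))
      (fun h => huv (hM.injl (hm.injective h))) (fun h => hM.ne u v (hm.injective h))
      (fun h => hM.ne v u (hm.injective h).symm) (fun h => huv (hM.injr (hm.injective h)))]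
    have hi : ∀ x y : ℝ, 2 * Real.arctan x < 2 * Real.arctan y ↔ x < y := fun x y => hm.lt_iff_lt
    simp only [Ovl, hi]
  refine ⟨⟨fun v => pt (l v), fun v => pt (r v), fun v => geo_norm_e _, fun v => geo_norm_e _, ?_, hadj⟩, ?_⟩
  · rintro (u | u) (v | v) huv
    · simp only [Sum.elim_inl] at huv
      rw [hM.injl (hinj _ _ huv)]
    · simp only [Sum.elim_inl, Sum.elim_inr] at huv
      exact absurd (hinj _ _ huv) (hM.ne u v)
    · simp only [Sum.elim_inl, Sum.elim_inr] at huv
      exact absurd (hinj _ _ huv).symm (hM.ne v u)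
    · simp only [Sum.elim_inr] at huv
      rw [hM.injr (hinj _ _ huv)]
  · intro S hS
    by_cases h0 : ∃ u, u ∈ S
    · obtain ⟨u, hu⟩ := h0
      by_cases h1 : ∃ v, v ∈ S ∧ u ≠ v
      · obtain ⟨v, hv, huv⟩ := h1
        have hSa : ∀ x ∈ S, ∀ y ∈ S, x ≠ y → G.Adj x y := fun x hx y hy hxy => (hadj x y hxy).mpr (hS x hx y hy)
        have huv' := hSa u hu v hv huv
        have hsum : l u + r u ≠ l v + r v := by
          rcases (hM.adj u v).mp huv' with ⟨a, b, c⟩ | ⟨a, b, c⟩
          · intro h
            linarith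
          · intro h
            linarith
        obtain ⟨m, k, hk, e1, e2⟩ : ∃ m k : ℝ, 0 < k ∧ Thr m k (l u) (r u) ∧ Thr m k (l v) (r v) := by
          rcases (hM.adj u v).mp huv' with ⟨a, b, c⟩ | ⟨a, b, c⟩
          · exact ovl_pt a b c
          · obtain ⟨m, k, hk, e1, e2⟩ := ovl_pt a b c
            exact ⟨m, k, hk, e2, e1⟩
        refine ⟨zz m k, ?_⟩
        simp only [Set.mem_iInter]
        intro x hx
        by_cases hxu : x = u
        · rw [hxu]
          exact zz_mem hk (hM.lt u) e1
        by_cases hxv : x = v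
        · rw [hxv]
          exact zz_mem hk (hM.lt v) e2
        obtain ⟨m', k', hk', c1, c2, c3⟩ := hT u v x huv' (hSa u hu x hx (Ne.symm hxu)) (hSa v hv x hx (Ne.symm hxv))
        obtain ⟨h3, h4⟩ := thr_unique hsum e1 e2 c1 c2
        rw [h3, h4]
        exact zz_mem hk' (hM.lt x) c3
      · push Not at h1
        refine ⟨pt (l u), ?_⟩
        simp only [Set.mem_iInter]
        intro x hx
        rw [← h1 x hx]
        exact left_mem_segment ℝ _ _
    · push Not at h0
      refine ⟨0, ?_⟩
      simp only [Set.mem_iInter]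
      intro x hx
      exact absurd hx (h0 x)

end Pool.Agent.Helper90.DG
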